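import Mathlib.Data.ZMod.Basic
import Mathlib.Data.List.Sort
import Mathlib.Data.Finset.Sort
import Mathlib.LinearAlgebra.Matrix.Defs
import Mathlib.Data.Fintype.Card
import Mathlib.Algebra.Group.Nat.Even
import Mathlib.Algebra.Ring.Parity

/-!
# A skew-symmetric matrix without a parity-admissible linear ordering

There is a skew-symmetric `9 × 9` matrix `B` with entries `0` on the diagonal and `±1` off the
diagonal (a tournament) such that for every linear ordering of the indices some oriented chordless
cycle (a cyclic triangle) has an even number of positive entries in the GIM determined by the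
ordering.

For a tournament the parity property says that the ordering has no `i ≺ j ≺ k` with
`i → j → k → i`.  A backtracking search, checked by the kernel, shows that the tournament below
has no such ordering.
-/

namespace Pool.Agent.Results.MP_f0f309_al.NoOrdering

/-- `B` is skew-symmetrizable: `B D` is skew-symmetric for a diagonal matrix `D` with positive
integer entries `d i`. -/
def IsSkewSymmetrizable {n : ℕ} (B : Matrix (Fin n) (Fin n) ℤ) : Prop :=
  ∃ d : Fin n → ℤ, (∀ i, 0 < d i) ∧ ∀ i j, B i j * d j = -(B j i * d i)

open Classical in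
/-- the matrix (GIM) determined by the ordering `r` -/
noncomputable def gim {n : ℕ} (B : Matrix (Fin n) (Fin n) ℤ) (r : Fin n → Fin n → Prop) :
    Matrix (Fin n) (Fin n) ℤ :=
  fun i j => if i = j then 2 else if r i j then B i j else -B i j

/-- `c` is a chordless cycle in `B` of length `m ≥ 3` (`m = d - 1`); the indices of `c` are taken
modulo `m`. -/
def IsChordlessCycle {n : ℕ} (B : Matrix (Fin n) (Fin n) ℤ) (m : ℕ) (c : ZMod m → Fin n) : Prop :=
  3 ≤ m ∧ Function.Injective c ∧
    ∀ j k : ZMod m, j ≠ k → (B (c j) (c k) ≠ 0 ↔ (j - k = 1 ∨ j - k = -1))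

/-- the cycle is oriented: the entries `b_{i_j, i_{j+1}}` all have the same sign -/
def IsOriented {n : ℕ} (B : Matrix (Fin n) (Fin n) ℤ) (m : ℕ) (c : ZMod m → Fin n) : Prop :=
  (∀ j, 0 < B (c j) (c (j + 1))) ∨ (∀ j, B (c j) (c (j + 1)) < 0)

/-- the linear ordering `r` is admissible: every oriented chordless cycle has an odd number of
positive entries `a_{i_j, i_{j+1}}` -/
def IsAdmissible {n : ℕ} (B : Matrix (Fin n) (Fin n) ℤ) (r : Fin n → Fin n → Prop) : Prop :=
  ∀ (m : ℕ) (c : ZMod m → Fin n), IsChordlessCycle B m c → IsOriented B m c →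
    Odd (Nat.card {j : ZMod m // 0 < gim B r (c j) (c (j + 1))})

/-! ### The tournament -/

/-- out-neighbourhoods of the nine vertices as bit masks -/
def mask (a : ℕ) : ℕ := [92, 389, 312, 210, 354, 267, 166, 53, 201].getD a 0

/-- the arc relation of the tournament -/
def arc (a b : ℕ) : Bool := (mask a).testBit b

/-- the matrix of the tournament -/
def B9 : Matrix (Fin 9) (Fin 9) ℤ :=
  fun i j => if arc i.1 j.1 then 1 else if arc j.1 i.1 then -1 else 0

/-! ### The search -/

/-- `x` may be put in front of the list: no `j` before `k` in the list with `x → j → k → x` -/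
def okk (x : ℕ) : List ℕ → Bool
  | [] => true
  | j :: t => (!(arc x j) || t.all fun k => !(arc j k && arc k x)) && okk x t

/-- there is an admissible extension of the final segment `pre` by `k` further elements -/
def search : ℕ → List ℕ → Bool
  | 0, _ => true
  | k + 1, pre => [0, 1, 2, 3, 4, 5, 6, 7, 8].any fun x =>
      !(pre.contains x) && okk x pre && search k (x :: pre)

/-- no three positions of the list form a cycle `i → j → k → i` -/
def Good : List ℕ → Prop
  | [] => True
  | x :: t => okk x t = true ∧ Good t

theorem search_of_good : ∀ (k : ℕ) (l pre : List ℕ), l.length = k → (l ++ pre).Nodup →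
    (∀ x ∈ l, x < 9) → Good (l ++ pre) → search k pre = true
  | 0, _, _, _, _, _, _ => rfl
  | k + 1, l, pre, hl, hn, h9, hg => by
    obtain ⟨l', x, rfl⟩ : ∃ l' x, l = l' ++ [x] := by
      rcases List.eq_nil_or_concat l with h | ⟨l', x, h⟩
      · simp [h] at hl
      · exact ⟨l', x, by rw [h, List.concat_eq_append]⟩
    have e : (l' ++ [x]) ++ pre = l' ++ (x :: pre) := by simp
    rw [e] at hn hg
    have hrec := search_of_good k l' (x :: pre) (by simpa using hl) hn
      (fun y hy => h9 y (by simp [hy])) hg
    have hx : x < 9 := h9 x (by simp)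
    have hnx : x ∉ pre := by
      have := (List.nodup_append.1 hn).2.1
      exact (List.nodup_cons.1 this).1
    have hgx : okk x pre = true := by
      clear hrec hn e hl h9
      induction l' with
      | nil => exact hg.1
      | cons a t ih => exact ih hg.2
    unfold search
    rw [List.any_eq_true]
    refine ⟨x, ?_, ?_⟩
    · simp only [List.mem_cons, List.not_mem_nil, or_false]; omega
    · simp [hnx, hgx, hrec]

theorem search_false : search 9 [] = false := by decide +kernel

/-! ### The theorem -/

theorem okk_of {r : ℕ → ℕ → Prop} (h : ∀ i j k, r i j → r j k → r i k →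
    ¬ (arc i j = true ∧ arc j k = true ∧ arc k i = true)) (x : ℕ) :
    ∀ t : List ℕ, (x :: t).Pairwise r → okk x t = true
  | [], _ => rfl
  | j :: t, hp => by
    have hp' := List.pairwise_cons.1 hp
    have hp2 := List.pairwise_cons.1 hp'.2
    have h1 : okk x t = true := by
      refine okk_of h x t (List.pairwise_cons.2 ⟨fun a ha => hp'.1 a (by simp [ha]), hp2.2⟩)
    unfold okk
    rw [h1, Bool.and_true, Bool.or_eq_true]
    by_cases hxj : arc x j = true
    · right
      rw [List.all_eq_true]
      intro k hk
      by_contra hc
      simp only [Bool.not_eq_true', Bool.and_eq_false_iff, not_or, Bool.not_eq_false] at hc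
      exact h x j k (hp'.1 j (by simp)) (hp2.1 k hk) (hp'.1 k (by simp [hk]))
        ⟨hxj, hc.1, hc.2⟩
    · left
      simpa using hxj

theorem good_of {r : ℕ → ℕ → Prop} (h : ∀ i j k, r i j → r j k → r i k →
    ¬ (arc i j = true ∧ arc j k = true ∧ arc k i = true)) :
    ∀ t : List ℕ, t.Pairwise r → Good t
  | [], _ => trivial
  | x :: t, hp => ⟨okk_of h x t hp, good_of h t (List.pairwise_cons.1 hp).2⟩

theorem antisymm_arc : ∀ i j : Fin 9, arc i.1 j.1 = true → arc j.1 i.1 = false := by decide

theorem total_arc : ∀ i j : Fin 9, i ≠ j → (arc i.1 j.1 = true ∨ arc j.1 i.1 = true) := by decide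

/-- **Main result.** The matrix `B9` is skew-symmetric and no linear ordering of the indices is
admissible for it. -/
theorem result : ∃ B : Matrix (Fin 9) (Fin 9) ℤ, IsSkewSymmetrizable B ∧
    ∀ r : Fin 9 → Fin 9 → Prop, IsStrictTotalOrder (Fin 9) r → ¬ IsAdmissible B r := by
  classical
  refine ⟨B9, ⟨fun _ => 1, fun _ => one_pos, ?_⟩, ?_⟩
  · intro i j
    have h1 := antisymm_arc i j
    have h2 := antisymm_arc j i
    simp only [B9, mul_one]
    by_cases hij : arc i.1 j.1 = true
    · simp [hij, h1 hij]
    · by_cases hji : arc j.1 i.1 = true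
      · simp [hij, hji]
      · simp [hij, hji]
  · intro r hr hadm
    -- no `i ≺ j ≺ k` with `i → j → k → i`
    have key : ∀ i j k : Fin 9, r i j → r j k → r i k →
        ¬ (arc i.1 j.1 = true ∧ arc j.1 k.1 = true ∧ arc k.1 i.1 = true) := by
      rintro i j k hij hjk hik ⟨a1, a2, a3⟩
      have nij : i ≠ j := fun h => by subst h; exact irrefl_of r i hij
      have njk : j ≠ k := fun h => by subst h; exact irrefl_of r j hjk
      have nik : i ≠ k := fun h => by subst h; exact irrefl_of r i hik
      have nki : ¬ r k i := fun h => irrefl_of r k (trans_of r h hik)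
      let c : ZMod 3 → Fin 9 := fun x => if x = 0 then i else if x = 1 then j else k
      have c0 : c 0 = i := rfl
      have c1 : c 1 = j := rfl
      have c2 : c 2 = k := rfl
      have hz : ∀ x : ZMod 3, x = 0 ∨ x = 1 ∨ x = 2 := by decide
      have s0 : (0 : ZMod 3) + 1 = 1 := by decide
      have s1 : (1 : ZMod 3) + 1 = 2 := by decide
      have s2 : (2 : ZMod 3) + 1 = 0 := by decide
      have b1 : B9 i j = 1 := by simp [B9, a1]
      have b2 : B9 j k = 1 := by simp [B9, a2]
      have b3 : B9 k i = 1 := by simp [B9, a3]
      have b1' : B9 j i = -1 := by simp [B9, a1, antisymm_arc _ _ a1]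
      have b2' : B9 k j = -1 := by simp [B9, a2, antisymm_arc _ _ a2]
      have b3' : B9 i k = -1 := by simp [B9, a3, antisymm_arc _ _ a3]
      have hc : IsChordlessCycle B9 3 c := by
        refine ⟨le_refl _, ?_, ?_⟩
        · intro x y hxy
          rcases hz x with rfl | rfl | rfl <;> rcases hz y with rfl | rfl | rfl <;>
            simp only [c0, c1, c2] at hxy <;>
            first
            | rfl
            | exact absurd hxy nij
            | exact absurd hxy.symm nij
            | exact absurd hxy njk
            | exact absurd hxy.symm njk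
            | exact absurd hxy nik
            | exact absurd hxy.symm nik
        · intro x y hxy
          constructor
          · intro _
            have h33 : ∀ x y : ZMod 3, x ≠ y → x - y = 1 ∨ x - y = -1 := by decide
            exact h33 x y hxy
          · intro _
            rcases hz x with rfl | rfl | rfl <;> rcases hz y with rfl | rfl | rfl <;>
              first
              | exact absurd rfl hxy
              | (simp only [c0, c1, c2, b1, b2, b3, b1', b2', b3']; decide)
      have ho : IsOriented B9 3 c := by
        left
        intro x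
        rcases hz x with rfl | rfl | rfl
        · rw [s0, c0, c1, b1]; exact one_pos
        · rw [s1, c1, c2, b2]; exact one_pos
        · rw [s2, c2, c0, b3]; exact one_pos
      have hodd := hadm 3 c hc ho
      have g0 : gim B9 r i j = 1 := by simp [gim, nij, hij, b1]
      have g1 : gim B9 r j k = 1 := by simp [gim, njk, hjk, b2]
      have g2 : gim B9 r k i = -1 := by simp [gim, Ne.symm nik, nki, b3]
      have hcard : Nat.card {x : ZMod 3 // 0 < gim B9 r (c x) (c (x + 1))} = 2 := by
        have hp : ∀ x : ZMod 3, 0 < gim B9 r (c x) (c (x + 1)) ↔ x ≠ 2 := by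
          intro x
          rcases hz x with rfl | rfl | rfl
          · rw [s0, c0, c1, g0]; decide
          · rw [s1, c1, c2, g1]; decide
          · rw [s2, c2, c0, g2]; decide
        rw [Nat.card_congr (Equiv.subtypeEquivRight hp), Nat.card_eq_fintype_card]
        decide
      rw [hcard] at hodd
      exact absurd hodd (by decide)
    -- the sorted list of all vertices
    let r' : Fin 9 → Fin 9 → Prop := fun a b => r a b ∨ a = b
    have : Std.Total r' := ⟨fun a b => by
      rcases trichotomous_of r a b with h | h | h
      · exact Or.inl (Or.inl h)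
      · exact Or.inl (Or.inr h)
      · exact Or.inr (Or.inl h)⟩
    have : IsTrans (Fin 9) r' := ⟨fun a b c hab hbc => by
      rcases hab with hab | rfl
      · rcases hbc with hbc | rfl
        · exact Or.inl (trans_of r hab hbc)
        · exact Or.inl hab
      · exact hbc⟩
    let L : List (Fin 9) := (List.finRange 9).insertionSort r'
    have hperm : L.Perm (List.finRange 9) := List.perm_insertionSort r' _
    have hL2 : L.Nodup := hperm.nodup_iff.2 (List.nodup_finRange 9)
    have hL1 : L.Pairwise r := by
      have h1 : L.Pairwise r' := List.pairwise_insertionSort r' _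
      refine (h1.and hL2).imp ?_
      rintro a b ⟨h, hne⟩
      exact h.resolve_right hne
    have hL3 : L.length = 9 := by
      rw [hperm.length_eq, List.length_finRange]
    let M : List ℕ := L.map Fin.val
    have hM1 : M.Pairwise (fun a b => ∃ (ha : a < 9) (hb : b < 9), r ⟨a, ha⟩ ⟨b, hb⟩) := by
      rw [List.pairwise_map]
      exact hL1.imp (fun {a b} h => ⟨a.2, b.2, h⟩)
    have hM2 : M.Nodup := hL2.map Fin.val_injective
    have hgood : Good M := by
      refine good_of ?_ M hM1
      rintro i j k ⟨hi, hj, hij⟩ ⟨_, hk, hjk⟩ ⟨_, _, hik⟩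
      exact key ⟨i, hi⟩ ⟨j, hj⟩ ⟨k, hk⟩ hij hjk hik
    have hs : search 9 [] = true := by
      refine search_of_good 9 M [] (by simp [M, hL3]) (by simpa using hM2) ?_ (by simpa using hgood)
      intro x hx
      simp only [M, List.mem_map] at hx
      obtain ⟨a, -, rfl⟩ := hx
      exact a.2
    rw [search_false] at hs
    exact absurd hs (by decide)

end Pool.Agent.Results.MP_f0f309_al.NoOrdering
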